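import Pool.Agent.helper4.QS.Spec

/-! # Project qs, module EXM (helper90): limits of the means of the example -/

open scoped BigOperators ComplexOrder ComplexConjugate Topology

namespace Pool.Agent.QS

open Pool.Agent.helper86.CM Filter

theorem EXM_kap (q x : ℝ) (s d : ℕ) : 0 ≤ kap q x s d ∧ kap q x s d ≤ 1 := by
  unfold kap
  have h1 := Real.cos_le_one (2 * Real.pi * q * x ^ (s * d))
  have h2 := Real.neg_one_le_cos (2 * Real.pi * q * x ^ (s * d))
  constructor <;> linarith

theorem EXM_kap2 (q x : ℝ) (s e d : ℕ) : 0 ≤ kap2 q x s e d ∧ kap2 q x s e d ≤ 1 := by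
  unfold kap2
  have h1 := Real.cos_le_one (2 * Real.pi * q * (x ^ (s * d) - x ^ (s * (d + e))))
  have h2 := Real.neg_one_le_cos (2 * Real.pi * q * (x ^ (s * d) - x ^ (s * (d + e))))
  constructor <;> linarith

theorem EXM_prod (f : ℕ → ℝ) (h : ∀ d, 0 ≤ f d ∧ f d ≤ 1) (S : Finset ℕ) :
    0 ≤ ∏ d ∈ S, f d ∧ ∏ d ∈ S, f d ≤ 1 :=
  ⟨Finset.prod_nonneg fun d _ => (h d).1, Finset.prod_le_one (fun d _ => (h d).1) fun d _ => (h d).2⟩

theorem EXM (hZ : EXZ_stmt) (h1 : EX1_stmt) (h2 : EX2_stmt) (hK : KP_stmt) (hC : CES_stmt)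
    (hL : LUL_stmt) : EXM_stmt := by
  intro B t hB b hb s hs
  obtain ⟨⟨hlam, -, -⟩, -⟩ := hL t hB.lt
  have hx0 : 0 < (lam t)⁻¹ := by positivity
  have hx1 : (lam t)⁻¹ < 1 := inv_lt_one_of_one_lt₀ (by linarith)
  have hs0 : 0 < s := by omega
  obtain ⟨P, Q, hP, hPt, hQt, hQP⟩ := hK (omega b (B b) : ℝ) ((lam t)⁻¹) s hx0 hx1 (by omega)
  refine ⟨P, fun e => (1 / 4 * (∏ d ∈ Finset.Icc 1 (e - 1), kap (omega b (B b)) ((lam t)⁻¹) s d) *
    Q e) / s, hP, ?_, ?_, ?_⟩
  · have h3 : Tendsto (fun e : ℕ => ∏ d ∈ Finset.Icc 1 (e - 1),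
        kap (omega b (B b)) ((lam t)⁻¹) s d) atTop (𝓝 P) := hPt.comp (tendsto_sub_atTop_nat 1)
    have h4 := ((h3.const_mul (1 / 4)).mul hQP).div_const (s : ℝ)
    have h5 : 1 / 4 * P * P / (s : ℝ) = P ^ 2 / (4 * s) := by
      field_simp
    rw [h5] at h4
    exact h4
  · have h3 := hC s 0 (by omega)
      (fun J i => EX0 B t b s J (pw B (i : ℤ) b, pw B (i : ℤ) 0))
      (fun m => ((1 / 2 * ∏ d ∈ Finset.Icc 1 m, kap (omega b (B b)) ((lam t)⁻¹) s d : ℝ) : ℂ))
      ((1 / 2 * P : ℝ) : ℂ) ?_ ?_ ?_ ?_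
    · have h4 : ((1 / 2 * P : ℝ) : ℂ) / (s : ℂ) = ((P / (2 * s) : ℝ) : ℂ) := by
        push_cast
        field_simp
      rw [h4] at h3
      exact h3
    · exact (Complex.continuous_ofReal.tendsto _).comp (hPt.const_mul (1 / 2))
    · intro J i
      simp only [map_zero]
      by_cases hi : ∃ j < J, i = s * j
      · obtain ⟨j, hj, rfl⟩ := hi
        rw [h1 B t hB b hb s J j hs hj, Complex.norm_real, Real.norm_eq_abs]
        obtain ⟨h5, h6⟩ := EXM_prod _ (EXM_kap (omega b (B b)) ((lam t)⁻¹) s)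
          (Finset.Icc 1 (J - 1 - j))
        rw [abs_of_nonneg (by positivity)]
        linarith
      · rw [(hZ B t hB b hb s J hs).1 i hi, norm_zero]
        exact zero_le_one
    · intro J i hi
      simp only [map_zero]
      refine (hZ B t hB b hb s J hs).1 i ?_
      rintro ⟨j, hj, hij⟩
      exact hi ⟨j, by omega, hj⟩
    · intro J i j hij hj
      simp only [map_zero]
      have hij' : i = s * j := by omega
      rw [hij']
      exact h1 B t hB b hb s J j hs hj
  · intro r r' hrr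
    have hpw : ∀ i : ℕ, pw B (i : ℤ) (pw B (r' : ℤ) b - pw B (r : ℤ) b) =
        pw B ((i + r' : ℕ) : ℤ) b - pw B ((i + r : ℕ) : ℤ) b := by
      intro i
      rw [map_sub, ← pw_add, ← pw_add]
      push_cast
      rfl
    by_cases hdv : s ∣ r' - r
    · obtain ⟨e, he⟩ := hdv
      have he1 : 1 ≤ e := by
        rcases Nat.eq_zero_or_pos e with h | h
        · rw [h, mul_zero] at he
          omega
        · exact h
      have hr' : r' = r + s * e := by omega
      have hquot : (r' - r) / s = e := by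
        rw [he, Nat.mul_div_cancel_left _ hs0]
      have hval : ∀ J i j : ℕ, i + r' = s * j → j < J →
          EX0 B t b s J (pw B ((i + r' : ℕ) : ℤ) b - pw B ((i + r : ℕ) : ℤ) b, 0) =
          ((1 / 4 * (∏ d ∈ Finset.Icc 1 (e - 1), kap (omega b (B b)) ((lam t)⁻¹) s d) *
            ∏ d ∈ Finset.Icc 1 (J - 1 - j), kap2 (omega b (B b)) ((lam t)⁻¹) s e d : ℝ) : ℂ) := by
        intro J i j hij hj
        have hje : e ≤ j := by
          have : s * e ≤ s * j := by omega
          exact Nat.le_of_mul_le_mul_left this hs0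
        obtain ⟨j0, rfl⟩ := Nat.exists_eq_add_of_le hje
        have h3 := h2 B t hB b hb s J j0 e hs he1 (by omega)
        have h4 : i + r' = s * (j0 + e) := by rw [hij]; ring
        have h5 : i + r = s * j0 := by
          have : s * (e + j0) = s * e + s * j0 := by ring
          omega
        rw [h4, h5, h3]
        have h6 : J - 1 - (j0 + e) = J - 1 - (e + j0) := by omega
        rw [h6]
      have hnot : ∀ J i : ℕ, (¬ ∃ j, i + r' = s * j ∧ j < J) →
          EX0 B t b s J (pw B ((i + r' : ℕ) : ℤ) b - pw B ((i + r : ℕ) : ℤ) b, 0) = 0 := by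
        intro J i hi
        refine (hZ B t hB b hb s J hs).2 (i + r') (i + r) (by omega) ?_
        rintro ⟨⟨j, hj, hij⟩, -⟩
        exact hi ⟨j, hij, hj⟩
      have h3 := hC s r' (by omega)
        (fun J i => EX0 B t b s J (pw B (i : ℤ) (pw B (r' : ℤ) b - pw B (r : ℤ) b),
          pw B (i : ℤ) 0))
        (fun m => ((1 / 4 * (∏ d ∈ Finset.Icc 1 (e - 1), kap (omega b (B b)) ((lam t)⁻¹) s d) *
            ∏ d ∈ Finset.Icc 1 m, kap2 (omega b (B b)) ((lam t)⁻¹) s e d : ℝ) : ℂ))
        ((1 / 4 * (∏ d ∈ Finset.Icc 1 (e - 1), kap (omega b (B b)) ((lam t)⁻¹) s d) *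
            Q e : ℝ) : ℂ) ?_ ?_ ?_ ?_
      · rw [if_pos ⟨e, he⟩, hquot]
        have h4 : ((1 / 4 * (∏ d ∈ Finset.Icc 1 (e - 1), kap (omega b (B b)) ((lam t)⁻¹) s d) *
            Q e : ℝ) : ℂ) / (s : ℂ) =
            (((1 / 4 * (∏ d ∈ Finset.Icc 1 (e - 1), kap (omega b (B b)) ((lam t)⁻¹) s d) *
            Q e) / s : ℝ) : ℂ) := by
          push_cast
          ring
        rw [h4] at h3
        exact h3
      · exact (Complex.continuous_ofReal.tendsto _).comp ((hQt e).const_mul _)
      · intro J i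
        simp only [map_zero, hpw]
        by_cases hi : ∃ j, i + r' = s * j ∧ j < J
        · obtain ⟨j, hij, hj⟩ := hi
          rw [hval J i j hij hj, Complex.norm_real, Real.norm_eq_abs]
          obtain ⟨h5, h6⟩ := EXM_prod _ (EXM_kap (omega b (B b)) ((lam t)⁻¹) s)
            (Finset.Icc 1 (e - 1))
          obtain ⟨h7, h8⟩ := EXM_prod _ (EXM_kap2 (omega b (B b)) ((lam t)⁻¹) s e)
            (Finset.Icc 1 (J - 1 - j))
          rw [abs_of_nonneg (by positivity)]
          have h9 := mul_le_mul h6 h8 h7 zero_le_one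
          nlinarith
        · rw [hnot J i hi, norm_zero]
          exact zero_le_one
      · intro J i hi
        simp only [map_zero, hpw]
        exact hnot J i hi
      · intro J i j hij hj
        simp only [map_zero, hpw]
        exact hval J i j hij hj
    · rw [if_neg hdv]
      have hzero : ∀ J : ℕ, EXm B t b s J (pw B (r' : ℤ) b - pw B (r : ℤ) b, 0) = 0 := by
        intro J
        unfold EXm
        rw [Finset.sum_eq_zero, mul_zero]
        intro i _
        simp only [map_zero, hpw]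
        refine (hZ B t hB b hb s J hs).2 (i + r') (i + r) (by omega) ?_
        rintro ⟨⟨j, hj, hij⟩, ⟨j', hj', hij'⟩⟩
        apply hdv
        have h3 : r' - r = s * j - s * j' := by omega
        rw [h3, ← Nat.mul_sub]
        exact Dvd.intro _ rfl
      simp only [hzero]
      rw [Complex.ofReal_zero]
      exact tendsto_const_nhds

end Pool.Agent.QS
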